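import Pool.Agent.Helper54.LG.Def
import Pool.Agent.Helper93.UG.Top

/-!
# UG: uniform gaps (Theorem U): definitions

`T` large, `c` the length of a window in units of `2π/log T`, `X = log T / c`, so that the kernel
`qk 0 (X (t - γ))` sees about `c` zeros. Averages in `t` are taken with the Poisson kernel `PW (WW T) (t - τ)`, `WW T = T^(4095/4096)`,
weighted by `‖RR‖²`, where `RR` is the resonator: `n` squarefree, all primes in `(T^(1/4c), T^(3/4c)]`, at most
`c/6` of them, coefficient `v^(number of primes) n^(-1/2-it)`.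
-/

set_option autoImplicit false
open MeasureTheory Set Filter Topology
open Pool.Agent.Helper57.Zeta Pool.Agent.Helper57.LH Pool.Agent.Helper57.ED Pool.Agent.Helper54.LG

namespace Pool.Agent.Helper69.UG

/-- Scale of the kernel. -/
noncomputable def XX (T c : ℝ) : ℝ := Real.log T / c

/-- Admissible `c`. -/
def Adm (c0 T c : ℝ) : Prop := c0 ≤ c ∧ c * Real.log (Real.log T) ≤ Real.log T / 16

/-- Primes of the resonator. -/
noncomputable def PR (T c : ℝ) : Finset ℕ :=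
  (Finset.range (⌊T ^ (3 / (4 * c))⌋₊ + 1)).filter fun p => p.Prime ∧ T ^ (1 / (4 * c)) < p

/-- Largest number of prime factors. -/
noncomputable def KR (c : ℝ) : ℕ := ⌊c / 6⌋₊

open Classical in
/-- Coefficients of the resonator. -/
noncomputable def rr (T c v : ℝ) (n : ℕ) : ℝ :=
  if Squarefree n ∧ n.primeFactors ⊆ PR T c ∧ n.primeFactors.card ≤ KR c then v ^ n.primeFactors.card else 0

/-- Length of the resonator. -/
noncomputable def NR (T : ℝ) : ℕ := ⌊T ^ (1 / 8 : ℝ)⌋₊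

/-- The resonator. -/
noncomputable def RR (T c v t : ℝ) : ℂ :=
  ∑ n ∈ Finset.Icc 1 (NR T), (rr T c v n : ℂ) * (n : ℂ) ^ (-((1 / 2 : ℂ) + (t : ℂ) * Complex.I))

/-- Its diagonal mean square. -/
noncomputable def VV (T c v : ℝ) : ℝ := ∑ n ∈ Finset.Icc 1 (NR T), rr T c v n ^ 2 / n

/-- Scale of the averages in `t`. -/
noncomputable def WW (T : ℝ) : ℝ := T ^ (4095 / 4096 : ℝ)

/-- The weight. -/
noncomputable def wt (T c v τ t : ℝ) : ℝ := PW (WW T) (t - τ) * ‖RR T c v t‖ ^ 2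

open Classical in
/-- Mollifier, part coprime to the primes of the resonator. -/
noncomputable def ma (T c : ℝ) (d : ℕ) : ℝ :=
  if ∀ p ∈ PR T c, ¬ p ∣ d then
    (ArithmeticFunction.moebius d : ℝ) * max 0 (min 1 (2 - 32 * Real.log d / Real.log T)) else 0

open Classical in
/-- Mollifier, part composed of the primes of the resonator. -/
noncomputable def mb (T c : ℝ) (d : ℕ) : ℝ :=
  if d.primeFactors ⊆ PR T c ∧ (d : ℝ) ≤ T ^ (1 / 32 : ℝ) then (ArithmeticFunction.moebius d : ℝ) else 0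

/-- The mollifier. -/
noncomputable def mm (T c : ℝ) (n : ℕ) : ℝ := ∑ x ∈ n.divisorsAntidiagonal, ma T c x.1 * mb T c x.2

/-- Length of the mollifier. -/
noncomputable def NM (T : ℝ) : ℕ := ⌊T ^ (3 / 32 : ℝ)⌋₊

/-- `ζ M`. -/
noncomputable def FF (T c : ℝ) (s : ℂ) : ℂ := riemannZeta s * Mo (NM T) (mm T c) s

/-- `1 * m`. -/
noncomputable def gg (T c : ℝ) (n : ℕ) : ℝ := ∑ d ∈ n.divisors, mm T c d

/-- The point `1/2 + y/log T + it`. -/
noncomputable def pt (T y t : ℝ) : ℂ := ((1 / 2 + y / Real.log T : ℝ) : ℂ) + (t : ℂ) * Complex.I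

/-- `∑_n r(n) r(pn)/n`. -/
noncomputable def WP (T c v : ℝ) (p : ℕ) : ℝ := ∑ n ∈ Finset.Icc 1 (NR T), rr T c v n * rr T c v (p * n) / n

/-- Circle mean of `‖F - 1‖`, centre `1/2 + 4·2^k y/log T + it`, radius `(4·2^k - 1/2) y/log T`. -/
noncomputable def circ (T c y : ℝ) (k : ℕ) (t : ℝ) : ℝ :=
  (2 * Real.pi)⁻¹ * ∫ φ in (0:ℝ)..(2 * Real.pi),
    ‖FF T c (pt T (4 * 2 ^ k * y) t + (((4 * 2 ^ k - 1 / 2) * y / Real.log T : ℝ) : ℂ) * Complex.exp (φ * Complex.I)) - 1‖

/-- `‖F - 1‖` at the centre. -/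
noncomputable def cen (T c y : ℝ) (k : ℕ) (t : ℝ) : ℝ := ‖FF T c (pt T (4 * 2 ^ k * y) t) - 1‖

/-- Majorant for the number of zeros in a cell (`K` the number of circles). -/
noncomputable def GY (T c y : ℝ) (K : ℕ) (t : ℝ) : ℝ :=
  15 * (circ T c y 0 t + 2 * cen T c y 0 t) +
    ∑ k ∈ Finset.Ico 1 K, 15 * 2 ^ k * (circ T c y k t + 2 * cen T c y k t) * (2 * cen T c y (k - 1) t)

/-- Smooth count of the ordinates, `∑ mx ρ qk(0, X (t - γ))`. -/
noncomputable def NX (X t : ℝ) : ℝ := ∑' ρ : ZS, mx ρ * qk 0 (zb X t ρ)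

open Classical in
/-- Zeros at least `Y / log T` from the line, with the weight `exp (2 X |β - 1/2|) / (1 + X²(t-γ)²)`. -/
noncomputable def far (T c Y t : ℝ) : ℝ :=
  ∑' ρ : ZS, mx ρ * (if Real.log T * |(ρ : ℂ).re - 1 / 2| < Y then 0 else
    Real.exp (2 * za (XX T c) ρ) / (1 + zb (XX T c) t ρ ^ 2))

open Classical in
/-- Zeros nearer to the line. -/
noncomputable def near (T c Y t : ℝ) : ℝ :=
  ∑' ρ : ZS, mx ρ * (if Real.log T * |(ρ : ℂ).re - 1 / 2| < Y then 1 / (1 + zb (XX T c) t ρ ^ 2) else 0)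

end Pool.Agent.Helper69.UG
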